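import Mathlib

/-!
# The list-chromatic number of the vertex-doubled graph: an upper bound in terms of `k` and the
number of vertices

If `G` is a `k`-choosable graph with `n` vertices and `2 n ∑_{i < k} C(s, i) < 2 ^ s`, then `G[I_2]`
is `s`-choosable. This holds if `2 n 2 ^ s 3 ^ k < 3 ^ (s + 1)`, for instance for `s = 4 k` as long as
`2 n 16 ^ k < 3 * 27 ^ k`. If all `k`-choosable finite graphs have average degree at most `d`, then
`G[I_2]` is `(2 ⌊d⌋ + 1)`-choosable for every `k`-choosable finite graph `G`.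
-/

set_option autoImplicit false

namespace Pool.Agent.Results.MP_069451_co.ColourSplit

/-- `G` is `k`-choosable: whenever every vertex gets a list of `k` colours, there is a proper
colouring from the lists. -/
def Choosable {V : Type} (G : SimpleGraph V) (k : ℕ) : Prop :=
  ∀ L : V → Finset ℕ, (∀ v, (L v).card = k) →
    ∃ c : V → ℕ, (∀ v, c v ∈ L v) ∧ ∀ u v, G.Adj u v → c u ≠ c v

/-- The graph `G[I_2]`: every vertex is replaced by two non-adjacent copies. -/
def doubled {V : Type} (G : SimpleGraph V) : SimpleGraph (V × Fin 2) where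
  Adj x y := G.Adj x.1 y.1
  symm := ⟨fun _ _ h => SimpleGraph.Adj.symm (G := G) h⟩
  loopless := ⟨fun x h => G.loopless.irrefl x.1 h⟩

theorem card_small (M : Finset ℕ) (k : ℕ) :
    (M.powerset.filter fun T => T.card < k).card = ∑ i ∈ Finset.range k, M.card.choose i := by
  classical
  have h : (M.powerset.filter fun T => T.card < k) =
      (Finset.range k).biUnion fun i => M.powersetCard i := by
    ext T
    simp only [Finset.mem_filter, Finset.mem_powerset, Finset.mem_biUnion, Finset.mem_range,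
      Finset.mem_powersetCard]
    constructor
    · rintro ⟨h1, h2⟩
      exact ⟨_, h2, h1, rfl⟩
    · rintro ⟨i, h1, h2, h3⟩
      exact ⟨h2, by omega⟩
  rw [h, Finset.card_biUnion]
  · exact Finset.sum_congr rfl fun i _ => Finset.card_powersetCard i M
  · intro i _ j _ hij
    exact Finset.pairwise_disjoint_powersetCard M hij

/-- the number of subsets `A` of `U` for which fewer than `k` elements of `M` are in `A` -/
theorem bad_left (U M : Finset ℕ) (hM : M ⊆ U) (k : ℕ) :
    (U.powerset.filter fun A => (M ∩ A).card < k).card ≤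
      (∑ i ∈ Finset.range k, M.card.choose i) * 2 ^ (U.card - M.card) := by
  classical
  rw [← card_small M k, ← Finset.card_sdiff_of_subset hM, ← Finset.card_powerset,
    ← Finset.card_product]
  refine Finset.card_le_card_of_injOn (fun A => (M ∩ A, A \ M)) ?_ ?_
  · intro A hA
    have hA' := Finset.mem_filter.1 (Finset.mem_coe.1 hA)
    have h1 := Finset.mem_powerset.1 hA'.1
    refine Finset.mem_coe.2 (Finset.mem_product.2 ⟨Finset.mem_filter.2
      ⟨Finset.mem_powerset.2 Finset.inter_subset_left, hA'.2⟩, Finset.mem_powerset.2 ?_⟩)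
    exact Finset.sdiff_subset_sdiff h1 (le_refl M)
  · intro A _ B _ hAB
    have h1 : M ∩ A = M ∩ B := congrArg Prod.fst hAB
    have h2 : A \ M = B \ M := congrArg Prod.snd hAB
    ext x
    by_cases hx : x ∈ M
    · have := Finset.ext_iff.1 h1 x
      simpa [hx] using this
    · have := Finset.ext_iff.1 h2 x
      simpa [hx] using this

/-- the number of subsets `A` of `U` for which fewer than `k` elements of `M` are outside `A` -/
theorem bad_right (U M : Finset ℕ) (hM : M ⊆ U) (k : ℕ) :
    (U.powerset.filter fun A => (M \ A).card < k).card ≤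
      (∑ i ∈ Finset.range k, M.card.choose i) * 2 ^ (U.card - M.card) := by
  classical
  rw [← card_small M k, ← Finset.card_sdiff_of_subset hM, ← Finset.card_powerset,
    ← Finset.card_product]
  refine Finset.card_le_card_of_injOn (fun A => (M \ A, A \ M)) ?_ ?_
  · intro A hA
    have hA' := Finset.mem_filter.1 (Finset.mem_coe.1 hA)
    have h1 := Finset.mem_powerset.1 hA'.1
    refine Finset.mem_coe.2 (Finset.mem_product.2 ⟨Finset.mem_filter.2
      ⟨Finset.mem_powerset.2 Finset.sdiff_subset, hA'.2⟩, Finset.mem_powerset.2 ?_⟩)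
    exact Finset.sdiff_subset_sdiff h1 (le_refl M)
  · intro A _ B _ hAB
    have h1 : M \ A = M \ B := congrArg Prod.fst hAB
    have h2 : A \ M = B \ M := congrArg Prod.snd hAB
    ext x
    by_cases hx : x ∈ M
    · have := Finset.ext_iff.1 h1 x
      simp only [Finset.mem_sdiff, hx, true_and] at this
      exact not_iff_not.1 this
    · have := Finset.ext_iff.1 h2 x
      simpa [hx] using this

theorem split {V : Type} [Fintype V] (G : SimpleGraph V) (k s : ℕ) (hG : Choosable G k)
    (hs : 2 * Fintype.card V * ∑ i ∈ Finset.range k, s.choose i < 2 ^ s) :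
    Choosable (doubled G) s := by
  classical
  intro L hL
  set U : Finset ℕ := Finset.univ.biUnion L with hU
  have hLU : ∀ x, L x ⊆ U := fun x => Finset.subset_biUnion_of_mem L (Finset.mem_univ x)
  obtain ⟨A, hA0, hA1⟩ : ∃ A : Finset ℕ, (∀ v, k ≤ (L (v, 0) ∩ A).card) ∧
      ∀ v, k ≤ (L (v, 1) \ A).card := by
    rcases isEmpty_or_nonempty V with hV | ⟨⟨v0⟩⟩
    · exact ⟨∅, fun v => (hV.false v).elim, fun v => (hV.false v).elim⟩
    by_contra hcon
    push Not at hcon
    have hcov : U.powerset ⊆ (Finset.univ : Finset V).biUnion fun v =>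
        (U.powerset.filter fun A => (L (v, 0) ∩ A).card < k) ∪
        (U.powerset.filter fun A => (L (v, 1) \ A).card < k) := by
      intro A hA
      by_cases h : ∀ v, k ≤ (L (v, 0) ∩ A).card
      · obtain ⟨v, hv⟩ := hcon A h
        exact Finset.mem_biUnion.2 ⟨v, Finset.mem_univ v,
          Finset.mem_union_right _ (Finset.mem_filter.2 ⟨hA, hv⟩)⟩
      · push Not at h
        obtain ⟨v, hv⟩ := h
        exact Finset.mem_biUnion.2 ⟨v, Finset.mem_univ v,
          Finset.mem_union_left _ (Finset.mem_filter.2 ⟨hA, hv⟩)⟩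
    have h1 := Finset.card_le_card hcov
    have h2 := h1.trans Finset.card_biUnion_le
    set S := ∑ i ∈ Finset.range k, s.choose i with hS
    have h3 : ∀ v : V, ((U.powerset.filter fun A => (L (v, 0) ∩ A).card < k) ∪
        (U.powerset.filter fun A => (L (v, 1) \ A).card < k)).card ≤
        2 * (S * 2 ^ (U.card - s)) := by
      intro v
      refine (Finset.card_union_le _ _).trans ?_
      have e1 := bad_left U (L (v, 0)) (hLU _) k
      have e2 := bad_right U (L (v, 1)) (hLU _) k
      rw [hL, ← hS] at e1 e2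
      omega
    have h4 := h2.trans (Finset.sum_le_sum fun v _ => h3 v)
    rw [Finset.card_powerset, Finset.sum_const, Finset.card_univ, smul_eq_mul] at h4
    have hsU : s ≤ U.card := by
      rw [← hL (v0, 0)]
      exact Finset.card_le_card (hLU _)
    have h5 : 2 ^ U.card = 2 ^ s * 2 ^ (U.card - s) := by
      rw [← pow_add]
      congr 1
      omega
    rw [h5] at h4
    have h6 : Fintype.card V * (2 * (S * 2 ^ (U.card - s))) =
        (2 * Fintype.card V * S) * 2 ^ (U.card - s) := by ring
    rw [h6] at h4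
    have h7 : 0 < 2 ^ (U.card - s) := by positivity
    exact absurd (le_of_mul_le_mul_right h4 h7) (not_le.2 hs)
  have e0 : ∀ v, ∃ M : Finset ℕ, M ⊆ L (v, 0) ∩ A ∧ M.card = k := fun v =>
    Finset.exists_subset_card_eq (hA0 v)
  have e1 : ∀ v, ∃ M : Finset ℕ, M ⊆ L (v, 1) \ A ∧ M.card = k := fun v =>
    Finset.exists_subset_card_eq (hA1 v)
  choose M0 hM0 hM0c using e0
  choose M1 hM1 hM1c using e1
  obtain ⟨c0, hc0, hp0⟩ := hG M0 hM0c
  obtain ⟨c1, hc1, hp1⟩ := hG M1 hM1c
  have g0 : ∀ v, c0 v ∈ L (v, 0) ∧ c0 v ∈ A := fun v => Finset.mem_inter.1 (hM0 v (hc0 v))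
  have g1 : ∀ v, c1 v ∈ L (v, 1) ∧ c1 v ∉ A := fun v => Finset.mem_sdiff.1 (hM1 v (hc1 v))
  refine ⟨fun x => if x.2 = 0 then c0 x.1 else c1 x.1, ?_, ?_⟩
  · rintro ⟨v, i⟩
    fin_cases i
    · exact (g0 v).1
    · exact (g1 v).1
  · rintro ⟨u, i⟩ ⟨v, j⟩ h
    have h' : G.Adj u v := h
    fin_cases i <;> fin_cases j
    · exact hp0 u v h'
    · intro heq
      have heq' : c0 u = c1 v := heq
      exact (g1 v).2 (heq' ▸ (g0 u).2)
    · intro heq
      have heq' : c1 u = c0 v := heq
      exact (g1 u).2 (heq' ▸ (g0 v).2)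
    · exact hp1 u v h'

/-- a bound for the sum of binomial coefficients -/
theorem sum_le (k s : ℕ) (hk : k ≤ s) :
    (∑ i ∈ Finset.range k, s.choose i) * 3 ^ (s + 1) ≤ 4 ^ s * 3 ^ k := by
  have h1 : (4 : ℕ) ^ s = ∑ i ∈ Finset.range (s + 1), 1 ^ i * 3 ^ (s - i) * s.choose i := by
    have := add_pow (1 : ℕ) 3 s
    norm_num at this ⊢
    exact this
  have h2 : ∑ i ∈ Finset.range k, 1 ^ i * 3 ^ (s - i) * s.choose i ≤ 4 ^ s := by
    rw [h1]
    exact Finset.sum_le_sum_of_subset (Finset.range_subset_range.2 (by omega))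
  have h3 : (∑ i ∈ Finset.range k, s.choose i) * 3 ^ (s + 1 - k) ≤ 4 ^ s := by
    refine le_trans ?_ h2
    rw [Finset.sum_mul]
    refine Finset.sum_le_sum fun i hi => ?_
    have hi' := Finset.mem_range.1 hi
    rw [one_pow, one_mul, mul_comm]
    exact Nat.mul_le_mul_right _ (Nat.pow_le_pow_right (by norm_num) (by omega))
  have h4 : (3 : ℕ) ^ (s + 1) = 3 ^ (s + 1 - k) * 3 ^ k := by
    rw [← pow_add]
    congr 1
    omega
  rw [h4, ← mul_assoc]
  exact Nat.mul_le_mul_right _ h3

/-- Greedy colouring of a graph in which every non-empty set `T` of vertices has an element with at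
most `D` neighbours in `T`. -/
theorem greedy {W : Type} [Fintype W] (H : SimpleGraph W) (D : ℕ)
    (hdeg : ∀ T : Set W, T.Nonempty → ∃ x ∈ T, {y | y ∈ T ∧ H.Adj x y}.ncard ≤ D) :
    Choosable H (D + 1) := by
  classical
  intro L hL
  have key : ∀ (m : ℕ) (T : Set W), T.ncard = m →
      ∃ c : W → ℕ, (∀ v ∈ T, c v ∈ L v) ∧ ∀ u ∈ T, ∀ v ∈ T, H.Adj u v → c u ≠ c v := by
    intro m
    induction m with
    | zero =>
      intro T hT
      have hT0 : T = ∅ := (Set.ncard_eq_zero (Set.toFinite T)).1 hT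
      subst hT0
      exact ⟨fun _ => 0, fun v hv => absurd hv (Set.notMem_empty v),
        fun u hu => absurd hu (Set.notMem_empty u)⟩
    | succ m ih =>
      intro T hT
      have hTne : T.Nonempty := by
        rw [Set.nonempty_iff_ne_empty]
        rintro rfl
        rw [Set.ncard_empty] at hT
        omega
      obtain ⟨x, hx, hxd⟩ := hdeg T hTne
      obtain ⟨c, hc, hp⟩ := ih (T \ {x}) (by
        rw [Set.ncard_sdiff_singleton_of_mem hx, hT]; omega)
      set N : Set W := {y | y ∈ T ∧ H.Adj x y} with hN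
      obtain ⟨a, ha, haN⟩ : ∃ a ∈ L x, ∀ y ∈ N, a ≠ c y := by
        by_contra hcon
        push Not at hcon
        have h1 : L x ⊆ N.toFinite.toFinset.image c := by
          intro a ha
          obtain ⟨y, hy, hay⟩ := hcon a ha
          exact Finset.mem_image.2 ⟨y, (Set.Finite.mem_toFinset _).2 hy, hay.symm⟩
        have h2 := (Finset.card_le_card h1).trans Finset.card_image_le
        rw [hL, ← Set.ncard_eq_toFinset_card N N.toFinite] at h2
        omega
      refine ⟨fun y => if y = x then a else c y, ?_, ?_⟩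
      · intro v hv
        by_cases hvx : v = x
        · subst hvx
          simpa using ha
        · simpa [hvx] using hc v ⟨hv, hvx⟩
      · intro u hu v hv huv
        by_cases hux : u = x
        · subst hux
          have hvu : v ≠ u := fun h => H.loopless.irrefl u (h ▸ huv)
          simp only [if_true, if_neg hvu]
          exact haN v ⟨hv, huv⟩
        · by_cases hvx : v = x
          · subst hvx
            simp only [if_true, if_neg hux]
            exact (haN u ⟨hu, huv.symm⟩).symm
          · simp only [if_neg hux, if_neg hvx]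
            exact hp u ⟨hu, hux⟩ v ⟨hv, hvx⟩ huv
  obtain ⟨c, hc, hp⟩ := key _ Set.univ rfl
  exact ⟨c, fun v => hc v (Set.mem_univ v), fun u v h =>
    hp u (Set.mem_univ u) v (Set.mem_univ v) h⟩

/-- The doubled graph of a graph in which every non-empty set `S` of vertices has an element with
at most `D` neighbours in `S`. -/
theorem doubled_degenerate {V : Type} [Fintype V] (G : SimpleGraph V) (D : ℕ)
    (hdeg : ∀ S : Set V, S.Nonempty → ∃ x ∈ S, {y | y ∈ S ∧ G.Adj x y}.ncard ≤ D) :
    Choosable (doubled G) (2 * D + 1) := by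
  classical
  refine greedy (doubled G) (2 * D) ?_
  intro T hT
  obtain ⟨v, ⟨x, hxT, rfl⟩, hv⟩ := hdeg (Prod.fst '' T) (hT.image _)
  refine ⟨x, hxT, ?_⟩
  have h1 : {y | y ∈ T ∧ (doubled G).Adj x y} ⊆
      {y | y ∈ Prod.fst '' T ∧ G.Adj x.1 y} ×ˢ (Set.univ : Set (Fin 2)) := by
    rintro y ⟨hy, hadj⟩
    exact ⟨⟨⟨y, hy, rfl⟩, hadj⟩, Set.mem_univ _⟩
  have h2 := Set.ncard_le_ncard h1 (Set.toFinite _)
  rw [Set.ncard_prod, Set.ncard_univ, Nat.card_fin] at h2
  omega

theorem choosable_induce {V : Type} (G : SimpleGraph V) (k : ℕ) (hG : Choosable G k)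
    (S : Set V) : Choosable (G.induce S) k := by
  classical
  intro L hL
  obtain ⟨c, hc, hp⟩ := hG (fun v => if h : v ∈ S then L ⟨v, h⟩ else Finset.range k) (by
    intro v
    by_cases h : v ∈ S
    · simp only [dif_pos h, hL]
    · simp only [dif_neg h, Finset.card_range])
  refine ⟨fun v => c v.1, fun v => ?_, fun u v h => hp u.1 v.1 h⟩
  have := hc v.1
  simpa only [dif_pos v.2, Subtype.coe_eta] using this

/-- If every `k`-choosable finite graph has average degree at most `d`, the graph `G[I_2]` is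
`(2 ⌊d⌋ + 1)`-choosable for every `k`-choosable `G`. -/
theorem of_average {V : Type} [Fintype V] (G : SimpleGraph V) (k : ℕ) (hG : Choosable G k)
    (d : ℝ) (hd : ∀ (W : Type) (_ : Fintype W) (H : SimpleGraph W), Choosable H k →
      2 * (H.edgeSet.ncard : ℝ) ≤ d * Fintype.card W) :
    Choosable (doubled G) (2 * ⌊d⌋₊ + 1) := by
  classical
  refine doubled_degenerate G ⌊d⌋₊ ?_
  intro S hS
  have h1 := hd S inferInstance (G.induce S) (choosable_induce G k hG S)
  have hne : Nonempty S := hS.to_subtype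
  have hsum : ∑ v : S, ((G.induce S).degree v : ℝ) = 2 * ((G.induce S).edgeSet.ncard : ℝ) := by
    have h2 := (G.induce S).sum_degrees_eq_twice_card_edges
    have h3 : (G.induce S).edgeSet.ncard = (G.induce S).edgeFinset.card := by
      rw [← SimpleGraph.coe_edgeFinset, Set.ncard_coe_finset]
    rw [h3]
    exact_mod_cast h2
  obtain ⟨v, hv⟩ : ∃ v : S, ((G.induce S).degree v : ℝ) ≤ d := by
    by_contra hcon
    push Not at hcon
    have h4 : ∑ _v : S, d < ∑ v : S, ((G.induce S).degree v : ℝ) :=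
      Finset.sum_lt_sum_of_nonempty Finset.univ_nonempty fun v _ => hcon v
    rw [Finset.sum_const, Finset.card_univ, nsmul_eq_mul, mul_comm] at h4
    linarith
  refine ⟨v.1, v.2, ?_⟩
  have h5 : {y | y ∈ S ∧ G.Adj v.1 y}.ncard = (G.induce S).degree v := by
    have h6 : {y | y ∈ S ∧ G.Adj v.1 y} =
        Subtype.val '' (((G.induce S).neighborFinset v : Finset S) : Set S) := by
      ext y
      constructor
      · rintro ⟨hy, hadj⟩
        exact ⟨⟨y, hy⟩, by simpa using hadj, rfl⟩
      · rintro ⟨y, hy, rfl⟩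
        exact ⟨y.2, by simpa using hy⟩
    rw [h6, Set.ncard_image_of_injective _ Subtype.val_injective, Set.ncard_coe_finset,
      SimpleGraph.card_neighborFinset_eq_degree]
  rw [h5]
  exact Nat.le_floor hv

/-- Let `G` be a `k`-choosable graph with `n` vertices. The graph `G[I_2]` is `s`-choosable
(1) if `2 n ∑_{i < k} C(s, i) < 2 ^ s`; (2) if `2 n 2 ^ s 3 ^ k < 3 ^ (s + 1)`;
(3) for `s = 4 k`, if `2 n 16 ^ k < 3 * 27 ^ k`; (4) for `s = 2 ⌊d⌋ + 1`, if all `k`-choosable
finite graphs have average degree at most `d`. -/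
theorem result {V : Type} [Fintype V] (G : SimpleGraph V) (k : ℕ) (hG : Choosable G k) :
    (∀ s : ℕ, 2 * Fintype.card V * ∑ i ∈ Finset.range k, s.choose i < 2 ^ s →
      Choosable (doubled G) s) ∧
    (∀ s : ℕ, 2 * Fintype.card V * (2 ^ s * 3 ^ k) < 3 ^ (s + 1) → Choosable (doubled G) s) ∧
    (2 * Fintype.card V * 16 ^ k < 3 * 27 ^ k → Choosable (doubled G) (4 * k)) ∧
    (∀ d : ℝ, (∀ (W : Type) (_ : Fintype W) (H : SimpleGraph W), Choosable H k →
      2 * (H.edgeSet.ncard : ℝ) ≤ d * Fintype.card W) →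
        Choosable (doubled G) (2 * ⌊d⌋₊ + 1)) := by
  have h2 : ∀ s : ℕ, 2 * Fintype.card V * (2 ^ s * 3 ^ k) < 3 ^ (s + 1) →
      Choosable (doubled G) s := by
    intro s hs
    rcases isEmpty_or_nonempty V with hV | hV
    · intro L _
      exact ⟨fun _ => 0, fun v => (hV.false v.1).elim, fun u => (hV.false u.1).elim⟩
    have hn : 0 < Fintype.card V := Fintype.card_pos
    have hks : k ≤ s := by
      by_contra hcon
      have h1 : (3 : ℕ) ^ (s + 1) ≤ 3 ^ k := Nat.pow_le_pow_right (by norm_num) (by omega)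
      have h3 : 1 * 3 ^ k ≤ 2 ^ s * 3 ^ k := Nat.mul_le_mul_right _ Nat.one_le_two_pow
      have h4 : 1 * (2 ^ s * 3 ^ k) ≤ 2 * Fintype.card V * (2 ^ s * 3 ^ k) :=
        Nat.mul_le_mul_right _ (by omega)
      omega
    refine split G k s hG ?_
    have h1 := sum_le k s hks
    set S := ∑ i ∈ Finset.range k, s.choose i with hS
    have h4 : (4 : ℕ) ^ s = 2 ^ s * 2 ^ s := by rw [← mul_pow]; norm_num
    by_contra hcon
    push Not at hcon
    have h5 : 2 ^ s * 3 ^ (s + 1) ≤ (2 * Fintype.card V * S) * 3 ^ (s + 1) :=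
      Nat.mul_le_mul_right _ hcon
    have h6 : (2 * Fintype.card V * S) * 3 ^ (s + 1) ≤
        2 ^ s * (2 * Fintype.card V * (2 ^ s * 3 ^ k)) := by
      calc (2 * Fintype.card V * S) * 3 ^ (s + 1)
          = 2 * Fintype.card V * (S * 3 ^ (s + 1)) := by ring
        _ ≤ 2 * Fintype.card V * (4 ^ s * 3 ^ k) := Nat.mul_le_mul_left _ h1
        _ = 2 ^ s * (2 * Fintype.card V * (2 ^ s * 3 ^ k)) := by rw [h4]; ring
    have h7 := h5.trans h6
    have h8 : 0 < 2 ^ s := by positivity
    have h9 := le_of_mul_le_mul_left h7 h8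
    omega
  refine ⟨fun s hs => split G k s hG hs, h2, fun hs => h2 (4 * k) ?_,
    fun d hd => of_average G k hG d hd⟩
  have e1 : (2 : ℕ) ^ (4 * k) = 16 ^ k := by rw [pow_mul]; norm_num
  have e2 : (3 : ℕ) ^ (4 * k + 1) = 3 * (27 ^ k * 3 ^ k) := by
    rw [pow_succ, pow_mul, ← mul_pow]
    norm_num
    ring
  rw [e1, e2]
  have h3 : 0 < 3 ^ k := by positivity
  calc 2 * Fintype.card V * (16 ^ k * 3 ^ k) = (2 * Fintype.card V * 16 ^ k) * 3 ^ k := by ring
    _ < (3 * 27 ^ k) * 3 ^ k := Nat.mul_lt_mul_of_pos_right hs h3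
    _ = 3 * (27 ^ k * 3 ^ k) := by ring

end Pool.Agent.Results.MP_069451_co.ColourSplit
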