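import Mathlib

/-!
# Vertex-doubled graphs and kernel-perfect orientations

For every `k ≥ 1` the largest list-chromatic number of `G[I_2]` over all finite graphs `G`
whose `k`-choosability is witnessed by a kernel-perfect orientation with all outdegrees `< k`
is exactly `2 k - 1`.
-/

namespace Pool.Agent.Results.MP_069451_co.KernelExact

/-- `G` is `k`-choosable: whenever every vertex gets a list of `k` colours, there is a proper
colouring from the lists. -/
def Choosable {V : Type} (G : SimpleGraph V) (k : ℕ) : Prop :=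
  ∀ L : V → Finset ℕ, (∀ v, (L v).card = k) →
    ∃ c : V → ℕ, (∀ v, c v ∈ L v) ∧ ∀ u v, G.Adj u v → c u ≠ c v

/-- The list-chromatic number: the least `k` such that `G` is `k`-choosable. -/
noncomputable def listChromatic {V : Type} (G : SimpleGraph V) : ℕ :=
  sInf {k : ℕ | Choosable G k}

/-- The graph `G[I_2]`: every vertex is replaced by two non-adjacent copies. -/
def doubled {V : Type} (G : SimpleGraph V) : SimpleGraph (V × Fin 2) where
  Adj x y := G.Adj x.1 y.1
  symm := ⟨fun _ _ h => SimpleGraph.Adj.symm (G := G) h⟩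
  loopless := ⟨fun x h => G.loopless.irrefl x.1 h⟩

/-- `G` has an orientation (edges may be oriented both ways) with all outdegrees `< k`, such that
every induced subdigraph has a kernel: an independent set `K` of vertices such that every other
vertex of the subdigraph has an arc to a vertex of `K`. -/
def HasKernelOrientation {V : Type} (G : SimpleGraph V) (k : ℕ) : Prop :=
  ∃ D : V → V → Prop,
    (∀ u v, G.Adj u v → D u v ∨ D v u) ∧ (∀ u v, D u v → G.Adj u v) ∧
    (∀ v, {u | D v u}.ncard < k) ∧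
    ∀ S : Set V, ∃ K ⊆ S, (∀ x ∈ K, ∀ y ∈ K, ¬ G.Adj x y) ∧ ∀ x ∈ S, x ∉ K → ∃ y ∈ K, D x y

theorem Choosable.mono {V : Type} {G : SimpleGraph V} {j k : ℕ} (h : Choosable G j)
    (hjk : j ≤ k) : Choosable G k := by
  classical
  intro L hL
  have hex : ∀ v, ∃ M : Finset ℕ, M ⊆ L v ∧ M.card = j := fun v =>
    Finset.exists_subset_card_eq (by rw [hL v]; exact hjk)
  choose M hM hMc using hex
  obtain ⟨c, hc, hp⟩ := h M hMc
  exact ⟨c, fun v => hM v (hc v), hp⟩

/-- The kernel lemma of Bondy, Boppana and Siegel. -/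
theorem kernel_lemma {V : Type} [Fintype V] (G : SimpleGraph V) (D : V → V → Prop)
    (h3 : ∀ S : Set V, ∃ K ⊆ S, (∀ x ∈ K, ∀ y ∈ K, ¬ G.Adj x y) ∧
      ∀ x ∈ S, x ∉ K → ∃ y ∈ K, D x y) :
    ∀ (n : ℕ) (S : Set V) (L : V → Finset ℕ), S.ncard = n →
      (∀ v ∈ S, {u | u ∈ S ∧ D v u}.ncard < (L v).card) →
      ∃ c : V → ℕ, (∀ v ∈ S, c v ∈ L v) ∧ ∀ u ∈ S, ∀ v ∈ S, G.Adj u v → c u ≠ c v := by
  classical
  intro n
  induction n using Nat.strong_induction_on with
  | _ n ih =>
    intro S L hS hL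
    rcases S.eq_empty_or_nonempty with rfl | ⟨v0, hv0⟩
    · exact ⟨fun _ => 0, fun v hv => absurd hv (Set.notMem_empty v),
        fun u hu => absurd hu (Set.notMem_empty u)⟩
    · have hpos : 0 < (L v0).card := lt_of_le_of_lt (Nat.zero_le _) (hL v0 hv0)
      obtain ⟨a, ha⟩ := Finset.card_pos.mp hpos
      obtain ⟨K, hKT, hKi, hKd⟩ := h3 {v | v ∈ S ∧ a ∈ L v}
      have hKne : K.Nonempty := by
        by_cases hv : v0 ∈ K
        · exact ⟨v0, hv⟩
        · obtain ⟨y, hy, -⟩ := hKd v0 ⟨hv0, ha⟩ hv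
          exact ⟨y, hy⟩
      have hKS : K ⊆ S := fun x hx => (hKT hx).1
      have hlt : (S \ K).ncard < n := by
        rw [← hS]
        apply Set.ncard_lt_ncard _ (Set.toFinite S)
        refine ⟨Set.sdiff_subset, fun hsub => ?_⟩
        obtain ⟨y, hy⟩ := hKne
        exact (hsub (hKS hy)).2 hy
      obtain ⟨c, hc, hp⟩ := ih _ hlt (S \ K) (fun v => (L v).erase a) rfl (by
        intro v hv
        have hsub : {u | u ∈ S \ K ∧ D v u} ⊆ {u | u ∈ S ∧ D v u} :=
          fun u hu => ⟨hu.1.1, hu.2⟩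
        by_cases hav : a ∈ L v
        · rw [Finset.card_erase_of_mem hav]
          obtain ⟨y, hy, hvy⟩ := hKd v ⟨hv.1, hav⟩ hv.2
          have h4 : {u | u ∈ S \ K ∧ D v u}.ncard < {u | u ∈ S ∧ D v u}.ncard := by
            apply Set.ncard_lt_ncard _ (Set.toFinite _)
            exact ⟨hsub, fun hs => (hs ⟨hKS hy, hvy⟩ : y ∈ S \ K ∧ D v y).1.2 hy⟩
          have h5 := hL v hv.1
          omega
        · rw [Finset.erase_eq_of_notMem hav]
          exact lt_of_le_of_lt (Set.ncard_le_ncard hsub (Set.toFinite _)) (hL v hv.1))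
      refine ⟨fun v => if v ∈ K then a else c v, fun v hv => ?_, fun u hu v hv huv => ?_⟩
      · by_cases hvK : v ∈ K
        · simp only [hvK, if_true]
          exact (hKT hvK).2
        · simp only [hvK, if_false]
          exact Finset.mem_of_mem_erase (hc v ⟨hv, hvK⟩)
      · by_cases huK : u ∈ K
        · by_cases hvK : v ∈ K
          · exact absurd huv (hKi u huK v hvK)
          · simp only [huK, hvK, if_true, if_false]
            exact (Finset.ne_of_mem_erase (hc v ⟨hv, hvK⟩)).symm
        · by_cases hvK : v ∈ K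
          · simp only [huK, hvK, if_true, if_false]
            exact Finset.ne_of_mem_erase (hc u ⟨hu, huK⟩)
          · simp only [huK, hvK, if_false]
            exact hp u ⟨hu, huK⟩ v ⟨hv, hvK⟩ huv

theorem choosable_of_kernel {V : Type} [Fintype V] {G : SimpleGraph V} {k : ℕ}
    (h : HasKernelOrientation G k) : Choosable G k := by
  obtain ⟨D, -, -, h2, h3⟩ := h
  intro L hL
  obtain ⟨c, hc, hp⟩ := kernel_lemma G D h3 _ Set.univ L rfl (by
    intro v _
    rw [hL v]
    simpa using h2 v)
  exact ⟨c, fun v => hc v (Set.mem_univ v), fun u v huv =>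
    hp u (Set.mem_univ u) v (Set.mem_univ v) huv⟩

/-- A kernel-perfect orientation of `G` gives one of `G[I_2]`. -/
theorem doubled_kernel {V : Type} [Fintype V] {G : SimpleGraph V} {k : ℕ} (hk : 1 ≤ k)
    (h : HasKernelOrientation G k) : HasKernelOrientation (doubled G) (2 * k - 1) := by
  obtain ⟨D, h1, h2, h3, h4⟩ := h
  refine ⟨fun x y => D x.1 y.1, fun x y hxy => h1 _ _ hxy, fun x y hxy => h2 _ _ hxy, ?_, ?_⟩
  · intro v
    have heq : {u : V × Fin 2 | D v.1 u.1} = {u : V | D v.1 u} ×ˢ (Set.univ : Set (Fin 2)) := by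
      ext u
      simp
    rw [heq, Set.ncard_prod, Set.ncard_univ, Nat.card_eq_fintype_card, Fintype.card_fin]
    have h5 := h3 v.1
    omega
  · intro S
    obtain ⟨K, hKS, hKi, hKd⟩ := h4 (Prod.fst '' S)
    refine ⟨{x | x ∈ S ∧ x.1 ∈ K}, fun x hx => hx.1, fun x hx y hy => hKi _ hx.2 _ hy.2, ?_⟩
    intro x hx hxK
    have hx1 : x.1 ∉ K := fun hh => hxK ⟨hx, hh⟩
    obtain ⟨y, hy, hxy⟩ := hKd x.1 ⟨x, hx, rfl⟩ hx1
    obtain ⟨z, hz, hzy⟩ := hKS hy
    refine ⟨z, ⟨hz, ?_⟩, ?_⟩
    · rw [hzy]; exact hy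
    · change D x.1 z.1
      rw [hzy]; exact hxy

/-- The complete bipartite graph with one side `Fin p` and the other side all functions
`Fin m → Fin m`. -/
def bip (p m : ℕ) : SimpleGraph (Fin p ⊕ (Fin m → Fin m)) where
  Adj x y := x.isLeft ≠ y.isLeft
  symm := ⟨fun _ _ h => h.symm⟩
  loopless := ⟨fun _ h => h rfl⟩

theorem bip_kernel (p m : ℕ) : HasKernelOrientation (bip p m) (p + 1) := by
  classical
  refine ⟨fun x y => x.isLeft = false ∧ y.isLeft = true, ?_, ?_, ?_, ?_⟩
  · intro u v huv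
    rcases u with u | u <;> rcases v with v | v <;> simp_all [bip]
  · intro u v huv
    simp only [bip, huv.1, huv.2]
    decide
  · intro v
    have hsub : {u : Fin p ⊕ (Fin m → Fin m) | v.isLeft = false ∧ u.isLeft = true} ⊆
        Set.range (Sum.inl : Fin p → Fin p ⊕ (Fin m → Fin m)) := by
      rintro (u | u) hu
      · exact ⟨u, rfl⟩
      · simp at hu
    calc _ ≤ (Set.range (Sum.inl : Fin p → Fin p ⊕ (Fin m → Fin m))).ncard :=
          Set.ncard_le_ncard hsub (Set.toFinite _)
      _ ≤ (Set.univ : Set (Fin p)).ncard := by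
          rw [← Set.image_univ]
          exact Set.ncard_image_le (Set.toFinite _)
      _ < p + 1 := by
          rw [Set.ncard_univ, Nat.card_eq_fintype_card, Fintype.card_fin]
          omega
  · intro S
    refine ⟨{x | x ∈ S ∧ (x.isLeft = true ∨ ∀ y ∈ S, y.isLeft = false)}, fun x hx => hx.1,
      ?_, ?_⟩
    · rintro x ⟨hx, hx'⟩ y ⟨hy, hy'⟩ hxy
      apply hxy
      rcases hx' with hx' | hx'
      · rcases hy' with hy' | hy'
        · rw [hx', hy']
        · rw [hy' x hx, hy' y hy]
      · rw [hx' x hx, hx' y hy]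
    · intro x hx hxK
      have hx1 : x.isLeft = false := by
        by_contra hne
        exact hxK ⟨hx, Or.inl (by simpa using hne)⟩
      have hx2 : ∃ y ∈ S, y.isLeft = true := by
        by_contra hne
        push Not at hne
        exact hxK ⟨hx, Or.inr fun y hy => by simpa using hne y hy⟩
      obtain ⟨y, hy, hyl⟩ := hx2
      exact ⟨y, ⟨hy, Or.inl hyl⟩, hx1, hyl⟩

theorem bip_not (p : ℕ) : ¬ Choosable (doubled (bip p (2 * p))) (2 * p) := by
  classical
  set m := 2 * p with hm
  have hcard : Fintype.card (Fin p × Fin 2) = Fintype.card (Fin m) := by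
    simp [hm, mul_comm]
  let e : Fin p × Fin 2 ≃ Fin m := Fintype.equivOfCardEq hcard
  intro h
  let L : (Fin p ⊕ (Fin m → Fin m)) × Fin 2 → Finset ℕ := fun x =>
    match x with
    | (Sum.inl i, j) => Finset.univ.image (fun t : Fin m => Nat.pair (e (i, j)) t)
    | (Sum.inr f, _) => Finset.univ.image (fun i : Fin m => Nat.pair i (f i))
  obtain ⟨c, hc, hp⟩ := h L (by
    rintro ⟨i | f, j⟩
    · change (Finset.univ.image (fun t : Fin m => Nat.pair (e (i, j)) t)).card = m
      rw [Finset.card_image_of_injective, Finset.card_univ, Fintype.card_fin]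
      intro s t hst
      have := (Nat.pair_eq_pair.mp hst).2
      exact Fin.ext this
    · change (Finset.univ.image (fun i : Fin m => Nat.pair i (f i))).card = m
      rw [Finset.card_image_of_injective, Finset.card_univ, Fintype.card_fin]
      intro s t hst
      have := (Nat.pair_eq_pair.mp hst).1
      exact Fin.ext this)
  have hleft : ∀ i : Fin m, ∃ t : Fin m,
      c (Sum.inl (e.symm i).1, (e.symm i).2) = Nat.pair i t := by
    intro i
    have h1 := hc (Sum.inl (e.symm i).1, (e.symm i).2)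
    have h2 : L (Sum.inl (e.symm i).1, (e.symm i).2) =
        Finset.univ.image (fun t : Fin m => Nat.pair i t) := by
      change Finset.univ.image (fun t : Fin m => Nat.pair (e ((e.symm i).1, (e.symm i).2)) t) = _
      simp
    rw [h2] at h1
    obtain ⟨t, -, ht⟩ := Finset.mem_image.mp h1
    exact ⟨t, ht.symm⟩
  choose g hg using hleft
  have h3 := hc (Sum.inr g, 0)
  obtain ⟨i, -, hi⟩ := Finset.mem_image.mp
    (show c (Sum.inr g, 0) ∈ Finset.univ.image (fun i : Fin m => Nat.pair i (g i)) from h3)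
  refine hp (Sum.inl (e.symm i).1, (e.symm i).2) (Sum.inr g, 0) ?_ ?_
  · change (Sum.inl (e.symm i).1 : Fin p ⊕ (Fin m → Fin m)).isLeft ≠
      (Sum.inr g : Fin p ⊕ (Fin m → Fin m)).isLeft
    simp
  · rw [hg i, hi]

theorem listChromatic_eq {V : Type} {G : SimpleGraph V} {k : ℕ} (h : Choosable G (k + 1))
    (h' : ¬ Choosable G k) : listChromatic G = k + 1 := by
  have hle : listChromatic G ≤ k + 1 := Nat.sInf_le h
  have hmem : Choosable G (listChromatic G) :=
    Nat.sInf_mem (s := {k : ℕ | Choosable G k}) ⟨k + 1, h⟩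
  by_contra hne
  have hlt : listChromatic G ≤ k := by omega
  exact h' (hmem.mono hlt)

/-- Main result. -/
theorem result (k : ℕ) (hk : 1 ≤ k) :
    (∀ (V : Type) (_ : Fintype V) (G : SimpleGraph V), HasKernelOrientation G k →
      Choosable G k ∧ Choosable (doubled G) (2 * k - 1)) ∧
    ∃ (V : Type) (_ : Fintype V) (G : SimpleGraph V), HasKernelOrientation G k ∧
      Choosable G k ∧ listChromatic (doubled G) = 2 * k - 1 := by
  refine ⟨fun V _ G h => ⟨choosable_of_kernel h, choosable_of_kernel (doubled_kernel hk h)⟩, ?_⟩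
  obtain ⟨p, rfl⟩ : ∃ p, k = p + 1 := ⟨k - 1, by omega⟩
  have hK := bip_kernel p (2 * p)
  refine ⟨_, inferInstance, bip p (2 * p), hK, choosable_of_kernel hK, ?_⟩
  have h1 : 2 * (p + 1) - 1 = 2 * p + 1 := by omega
  rw [h1]
  apply listChromatic_eq _ (bip_not p)
  have h2 := choosable_of_kernel (doubled_kernel hk hK)
  rwa [h1] at h2

end Pool.Agent.Results.MP_069451_co.KernelExact
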